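import Mathlib
import Pool.Agent.helper52.Final

set_option autoImplicit false

open AlgebraicGeometry CategoryTheory Limits Pool.Agent.helper52

namespace Pool.Agent.Results.MP_a70ae2_nt.QuadPointsNotDense

/-- There are hyperelliptic curves `C` and `D` over the number field `ℚ`, of genus at least two,
such that the surface `C ×_ℚ D` (with its structure morphism `pullback.fst p q ≫ p` to `Spec ℚ`)
has no closed point of degree two at all. In particular its points of degree two are not Zariski
dense: `2` is not in the density degree set of `C ×_ℚ D`.

In the proof, `C : y² = -h(x)` and `D : z² = 3 h(t)` with `h(x) = (x³ - x + 1)² + 3`, and the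
obstruction to points over quadratic fields is local at the prime `3`. -/
theorem result : ∃ (C D : Scheme.{0}) (p : C ⟶ Spec (.of ℚ)) (q : D ⟶ Spec (.of ℚ)),
    IsHyperelliptic p ∧ IsHyperelliptic q ∧
    pointsOfDegree (pullback.fst p q ≫ p) 2 = ∅ ∧
    2 ∉ densityDegreeSet (pullback.fst p q ≫ p) :=
  main

end Pool.Agent.Results.MP_a70ae2_nt.QuadPointsNotDense
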